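import Pool.Agent.Lib.MP_570070_gt.Cf.Main

namespace Pool.Agent.Results.MP_570070_gt.AnalyticTorsionFails

open Filter Topology Pool.Agent.Lib.MP_570070_gt.An

/-- A connected Riemannian 3-manifold `X` with a proper, free, cocompact, isometric action of the
free group of rank two and a residual chain `K i` of finite index normal subgroups,
cofinal among all subgroups of finite index, such that `X`
and all quotients `Y i = X / K i` are of determinant class, and the analytic L2-torsions of the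
`Y i` do not converge to the analytic L2-torsion of `X`: they stay above it by at least `1 / 8`. -/
theorem result : ∃ (G : Type) (_ : Group G) (X : RMfd 3) (_ : MulAction G X.M) (F : Set X.M)
    (K : ℕ → Subgroup G) (_ : ∀ i, (K i).Normal) (Y : ℕ → RMfd 3)
    (_ : ∀ i, MulAction (G ⧸ K i) (Y i).M) (π : ∀ i, X.M → (Y i).M) (F' : ∀ i, Set (Y i).M),
    Nonempty (G ≃* FreeGroup (Fin 2)) ∧ ConnectedSpace X.M ∧ IsAction G X ∧ IsFund G X F ∧
    Antitone K ∧ ⨅ i, K i = ⊥ ∧ (∀ i, (K i).FiniteIndex) ∧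
    (∀ N : Subgroup G, N.FiniteIndex → ∃ i, K i ≤ N) ∧
    (∀ i, IsQuot (K i) X (Y i) (π i) ∧ IsFund (G ⧸ K i) (Y i) (F' i)) ∧
    (∃ ρ, IsTorsion X F ρ) ∧ (∀ i, ∃ r, IsTorsion (Y i) (F' i) r) ∧
    ∀ (ρ : ℝ) (r : ℕ → ℝ), IsTorsion X F ρ → (∀ i, IsTorsion (Y i) (F' i) (r i)) →
      (∀ᶠ i in atTop, ρ + 1 / 8 ≤ r i) ∧ ¬ Tendsto r atTop (𝓝 ρ) := by
  obtain ⟨c, G, _, _, g, K, _, ha, hi, hf, hcof, hfr, h1, hg, H⟩ := up_main_cof
  choose π hπ using fun i => exists_quot (g := g) (K i)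
  refine ⟨G, inferInstance, mfd (grpGl c g), actN g, core _ (base G), K, inferInstance,
    fun i => mfd (grpGl c fun e => (g e : G ⧸ K i)), fun i => actN _, π,
    fun i => core _ (base (G ⧸ K i)), hfr, connected_et _ (grpGl_conn c g h1 hg), isAction_grp,
    isFund_grp, ha, hi, hf, hcof, fun i => ⟨hπ i, isFund_grp⟩, exists_torsion c g K ha hi,
    fun i => exists_torsion_fin c _, fun ρ r hρ hr => ?_⟩
  have h := H ρ r (upTorsion_of hρ) fun i => upTorsion_of (hr i)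
  refine ⟨h, fun ht => ?_⟩
  have := ge_of_tendsto ht h
  linarith

/-- The statement without cofinality. -/
theorem plain : ∃ (G : Type) (_ : Group G) (X : RMfd 3) (_ : MulAction G X.M) (F : Set X.M)
    (K : ℕ → Subgroup G) (_ : ∀ i, (K i).Normal) (Y : ℕ → RMfd 3)
    (_ : ∀ i, MulAction (G ⧸ K i) (Y i).M) (π : ∀ i, X.M → (Y i).M) (F' : ∀ i, Set (Y i).M),
    Nonempty (G ≃* FreeGroup (Fin 2)) ∧ ConnectedSpace X.M ∧ IsAction G X ∧ IsFund G X F ∧
    Antitone K ∧ ⨅ i, K i = ⊥ ∧ (∀ i, (K i).FiniteIndex) ∧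
    (∀ i, IsQuot (K i) X (Y i) (π i) ∧ IsFund (G ⧸ K i) (Y i) (F' i)) ∧
    (∃ ρ, IsTorsion X F ρ) ∧ (∀ i, ∃ r, IsTorsion (Y i) (F' i) r) ∧
    ∀ (ρ : ℝ) (r : ℕ → ℝ), IsTorsion X F ρ → (∀ i, IsTorsion (Y i) (F' i) (r i)) →
      (∀ᶠ i in atTop, ρ + 1 / 8 ≤ r i) ∧ ¬ Tendsto r atTop (𝓝 ρ) := by
  obtain ⟨G, _, X, _, F, K, _, Y, _, π, F', h1, h2, h3, h4, h5, h6, h7, -, h9⟩ := result
  exact ⟨G, _, X, _, F, K, inferInstance, Y, _, π, F', h1, h2, h3, h4, h5, h6, h7, h9⟩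

end Pool.Agent.Results.MP_570070_gt.AnalyticTorsionFails
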